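import Pool.Agent.Helper78K9.DS.Rel
import Pool.Agent.R389.Mono

/-!
# Solomon's relation for the Galois group of a relative extension
-/

set_option autoImplicit false
set_option linter.unusedSectionVars false

namespace Pool.Agent.Helper78K9.SP

open Pool.Agent.R389 (Hyper ind_ind ind)

section group

variable {G : Type} [Group G] [Finite G]

theorem ind_comap_one {Y : Type} [Group Y] [Finite Y] {π : G →* Y} (hπ : Function.Surjective π)
    (K : Subgroup Y) (g : G) :
    ind (K.comap π) (fun _ => (1 : ℚ)) g = ind K (fun _ => (1 : ℚ)) (π g) := by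
  have h1 := congrFun (Pool.Agent.R389.ind_comap hπ K (fun _ => (1 : ℂ))) g
  have h2 : ((ind (K.comap π) (fun _ => (1 : ℚ)) g : ℚ) : ℂ) =
      ((ind K (fun _ => (1 : ℚ)) (π g) : ℚ) : ℂ) := by
    rw [← DS.ind_cast, ← DS.ind_cast]
    exact h1.symm
  exact_mod_cast h2

theorem solomon_rel (U W : Subgroup G) [(W.subgroupOf U).Normal] (hWU : W ≤ U) :
    ∃ B C : List (Subgroup G),
    (∀ V ∈ B, W ≤ V ∧ V ≤ U ∧
      Hyper ((V.subgroupOf U).map (QuotientGroup.mk' (W.subgroupOf U)))) ∧
    (∀ V ∈ C, W ≤ V ∧ V ≤ U ∧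
      Hyper ((V.subgroupOf U).map (QuotientGroup.mk' (W.subgroupOf U)))) ∧
    B ≠ [] ∧ C ≠ [] ∧ ∀ g : G, ind U (fun _ => (1 : ℚ)) g +
      (C.map fun V => ind V (fun _ => (1 : ℚ)) g).sum =
      (B.map fun V => ind V (fun _ => (1 : ℚ)) g).sum := by
  obtain ⟨B, C, hB, hC, hB0, hC0, h⟩ := DS.solomon (G := U ⧸ W.subgroupOf U)
  set ρ := QuotientGroup.mk' (W.subgroupOf U) with hρ
  have hsurj : Function.Surjective ρ := QuotientGroup.mk'_surjective _
  have hmap : ∀ V : Subgroup (U ⧸ W.subgroupOf U), Hyper V →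
      W ≤ (V.comap ρ).map U.subtype ∧ (V.comap ρ).map U.subtype ≤ U ∧
      Hyper ((((V.comap ρ).map U.subtype).subgroupOf U).map ρ) := by
    intro V hV
    refine ⟨?_, ?_, ?_⟩
    · intro w hw
      refine ⟨⟨w, hWU hw⟩, ?_, rfl⟩
      change ρ ⟨w, hWU hw⟩ ∈ V
      have h1 : ρ ⟨w, hWU hw⟩ = 1 := (QuotientGroup.eq_one_iff _).2 hw
      rw [h1]
      exact V.one_mem
    · rintro _ ⟨x, -, rfl⟩
      exact x.2
    · have h1 : ((V.comap ρ).map U.subtype).subgroupOf U = V.comap ρ :=
        Subgroup.comap_map_eq_self_of_injective U.subtype_injective _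
      rw [h1, Subgroup.map_comap_eq_self_of_surjective hsurj]
      exact hV
  have hind : ∀ (l : List (Subgroup (U ⧸ W.subgroupOf U))), ind U (fun u => (l.map fun V =>
      ind V (fun _ => (1 : ℚ)) (ρ u)).sum) =
        fun g => ((l.map fun V => (V.comap ρ).map U.subtype).map fun V =>
        ind V (fun _ => (1 : ℚ)) g).sum := by
    intro l
    induction l with
    | nil =>
      have h0 := Pool.Agent.R389.ind_zero (k := ℚ) U
      simpa [Pi.zero_def] using h0
    | cons V l ih =>
      have h1 : (fun u : U => (((V :: l).map fun V => ind V (fun _ => (1 : ℚ)) (ρ u)).sum)) =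
          ind (V.comap ρ) (fun _ => (1 : ℚ)) +
            fun u => (l.map fun V => ind V (fun _ => (1 : ℚ)) (ρ u)).sum := by
        funext u
        rw [List.map_cons, List.sum_cons, Pi.add_apply, ind_comap_one hsurj]
      rw [h1, Pool.Agent.R389.ind_add, ih, ind_ind]
      funext g
      simp only [List.map_cons, List.sum_cons, Pi.add_apply]
      rfl
  refine ⟨B.map fun V => (V.comap ρ).map U.subtype, C.map fun V => (V.comap ρ).map U.subtype,
    ?_, ?_, by simpa using hB0, by simpa using hC0, fun g => ?_⟩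
  · intro V hV
    obtain ⟨W, hW, rfl⟩ := List.mem_map.1 hV
    exact hmap W (hB W hW)
  · intro V hV
    obtain ⟨W, hW, rfl⟩ := List.mem_map.1 hV
    exact hmap W (hC W hW)
  · have h1 : (fun _ : U => (1 : ℚ)) +
        (fun u => (C.map fun V => ind V (fun _ => (1 : ℚ)) (ρ u)).sum) =
        fun u => (B.map fun V => ind V (fun _ => (1 : ℚ)) (ρ u)).sum := funext fun u => h (ρ u)
    have h2 := congrFun (congrArg (ind U) h1) g
    rw [Pool.Agent.R389.ind_add, hind, hind] at h2
    exact h2

end group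

end Pool.Agent.Helper78K9.SP
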