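import Pool.Agent.R389.Ind

/-!
# The relation between the permutation characters of the group `(ℤ/p)²`
-/

set_option autoImplicit false

namespace Pool.Agent.Helper78K9.SP

open Pool.Agent.R389

variable {G : Type} [CommGroup G] [Finite G]

open Classical in
theorem ind_comm (V : Subgroup G) (g : G) :
    ind V (fun _ => (1 : ℚ)) g = if g ∈ V then (V.index : ℚ) else 0 := by
  have := Fintype.ofFinite G
  rw [ind_eq]
  have h1 : ∀ x : G, ext V (fun _ => (1 : ℚ)) (x⁻¹ * g * x) = if g ∈ V then 1 else 0 := by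
    intro x
    have h2 : x⁻¹ * g * x = g := by rw [mul_comm, mul_inv_cancel_left]
    rw [h2]
    unfold ext
    by_cases h : g ∈ V
    · rw [dif_pos h, if_pos h]
    · rw [dif_neg h, if_neg h]
  simp only [h1]
  rw [Finset.sum_const, Finset.card_univ, nsmul_eq_mul]
  by_cases h : g ∈ V
  · rw [if_pos h, if_pos h, mul_one]
    have h3 := V.card_mul_index
    have h4 : (Nat.card V : ℚ) ≠ 0 := by exact_mod_cast Nat.card_pos.ne'
    rw [← Nat.card_eq_fintype_card, ← h3]
    push_cast
    field_simp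
  · rw [if_neg h, if_neg h, mul_zero, mul_zero]

/-- the subgroups of order `p` -/
noncomputable def lines (G : Type) [CommGroup G] [Finite G] (p : ℕ) : Finset (Subgroup G) :=
  (Set.toFinite {V : Subgroup G | Nat.card V = p}).toFinset

theorem mem_lines {p : ℕ} {V : Subgroup G} : V ∈ lines G p ↔ Nat.card V = p := by
  unfold lines
  rw [Set.Finite.mem_toFinset]
  rfl

open Classical in
theorem card_lines_mem {p : ℕ} (hp : p.Prime) (hexp : ∀ g : G, g ^ p = 1) {g : G} (hg : g ≠ 1) :
    ((lines G p).filter fun V => g ∈ V).card = 1 := by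
  have : Fact p.Prime := ⟨hp⟩
  have h1 : orderOf g = p := orderOf_eq_prime (hexp g) hg
  rw [Finset.card_eq_one]
  refine ⟨Subgroup.zpowers g, ?_⟩
  ext V
  rw [Finset.mem_filter, mem_lines, Finset.mem_singleton]
  constructor
  · rintro ⟨hV, hgV⟩
    have h2 : Subgroup.zpowers g ≤ V := by
      rw [Subgroup.zpowers_le]
      exact hgV
    refine (Subgroup.eq_of_le_of_card_ge h2 ?_).symm
    rw [hV, Nat.card_zpowers, h1]
  · rintro rfl
    exact ⟨by rw [Nat.card_zpowers, h1], Subgroup.mem_zpowers g⟩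

open Classical in
theorem card_lines {p : ℕ} (hp : p.Prime) (hexp : ∀ g : G, g ^ p = 1) (hG : Nat.card G = p ^ 2) :
    ((lines G p).card : ℚ) = p + 1 := by
  have := Fintype.ofFinite G
  have h1 : ∑ g : G, ∑ V ∈ lines G p, (if g ∈ V then (1 : ℚ) else 0) =
      ∑ V ∈ lines G p, ∑ g : G, (if g ∈ V then (1 : ℚ) else 0) := Finset.sum_comm
  have h2 : ∑ V ∈ lines G p, ∑ g : G, (if g ∈ V then (1 : ℚ) else 0) = (lines G p).card * p := by
    rw [Finset.sum_congr rfl (g := fun _ => (p : ℚ))]
    · rw [Finset.sum_const, nsmul_eq_mul]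
    · intro V hV
      rw [Finset.sum_ite, Finset.sum_const_zero, add_zero, Finset.sum_const, nsmul_eq_mul, mul_one]
      have h3 : (Finset.univ.filter fun g => g ∈ V).card = p := by
        rw [← mem_lines.1 hV, Nat.card_eq_fintype_card, Fintype.card_subtype]
      rw [h3]
  have h3 : ∀ g : G, ∑ V ∈ lines G p, (if g ∈ V then (1 : ℚ) else 0) =
      if g = 1 then ((lines G p).card : ℚ) else 1 := by
    intro g
    rw [Finset.sum_ite, Finset.sum_const_zero, add_zero, Finset.sum_const, nsmul_eq_mul, mul_one]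
    by_cases hg : g = 1
    · rw [if_pos hg, hg, Finset.filter_true_of_mem fun V _ => V.one_mem]
    · rw [if_neg hg, card_lines_mem hp hexp hg, Nat.cast_one]
  have h4 : ∑ g : G, (if g = 1 then ((lines G p).card : ℚ) else 1) =
      (lines G p).card + ((p : ℚ) ^ 2 - 1) := by
    rw [Finset.sum_ite]
    have h5 : (Finset.univ.filter fun g : G => g = 1) = {1} := by
      ext g
      simp
    rw [h5, Finset.sum_singleton, Finset.sum_const, nsmul_eq_mul, mul_one]
    congr 1
    have h6 : (Finset.univ.filter fun g : G => ¬ g = 1) = Finset.univ.erase 1 := by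
      ext g
      simp
    rw [h6, Finset.card_erase_of_mem (Finset.mem_univ _), Finset.card_univ,
      ← Nat.card_eq_fintype_card, hG, Nat.cast_sub (Nat.one_le_pow _ _ hp.pos)]
    push_cast
    ring
  rw [Finset.sum_congr rfl fun g _ => h3 g, h4, h2] at h1
  have hp1 : (p : ℚ) - 1 ≠ 0 := by
    rw [sub_ne_zero]
    exact_mod_cast hp.one_lt.ne'
  have h7 : ((p : ℚ) - 1) * ((lines G p).card - (p + 1)) = 0 := by
    have h8 : ((lines G p).card : ℚ) + ((p : ℚ) ^ 2 - 1) = (lines G p).card * p := h1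
    ring_nf
    ring_nf at h8
    linarith
  rcases mul_eq_zero.1 h7 with h8 | h8
  · exact absurd h8 hp1
  · linarith

/-- **the relation** -/
theorem rel {p : ℕ} (hp : p.Prime) (hexp : ∀ g : G, g ^ p = 1) (hG : Nat.card G = p ^ 2) (g : G) :
    (p : ℚ) + ind (⊥ : Subgroup G) (fun _ => (1 : ℚ)) g =
      ((lines G p).toList.map fun V => ind V (fun _ => (1 : ℚ)) g).sum := by
  classical
  rw [Finset.sum_map_toList]
  have h1 : ∀ V ∈ lines G p, ind V (fun _ => (1 : ℚ)) g = if g ∈ V then (p : ℚ) else 0 := by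
    intro V hV
    rw [ind_comm]
    have h2 := V.card_mul_index
    rw [mem_lines.1 hV, hG, sq] at h2
    have h3 : V.index = p := Nat.eq_of_mul_eq_mul_left hp.pos h2
    rw [h3]
  rw [Finset.sum_congr rfl h1, ind_comm]
  rw [Finset.sum_ite, Finset.sum_const_zero, add_zero, Finset.sum_const, nsmul_eq_mul]
  by_cases hg : g = 1
  · rw [hg, if_pos (Subgroup.one_mem _), Finset.filter_true_of_mem fun V _ => V.one_mem,
      card_lines hp hexp hG, Subgroup.index_bot, hG]
    push_cast
    ring
  · rw [if_neg (by rwa [Subgroup.mem_bot]), card_lines_mem hp hexp hg, Nat.cast_one]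
    ring

theorem lines_ne_nil {p : ℕ} (hp : p.Prime) (hexp : ∀ g : G, g ^ p = 1) (hG : Nat.card G = p ^ 2) :
    (lines G p).toList ≠ [] := by
  intro h
  have h1 := card_lines hp hexp hG
  rw [Finset.toList_eq_nil] at h
  rw [h] at h1
  simp only [Finset.card_empty, Nat.cast_zero] at h1
  have h2 : (0 : ℚ) ≤ p := Nat.cast_nonneg _
  linarith

end Pool.Agent.Helper78K9.SP
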