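import Pool.Agent.Helper78K9.SP.Dis
import Pool.Agent.Helper78K9.DS.CycJ

/-!
# Cyclic extensions in which given primes split completely
-/

set_option autoImplicit false

namespace Pool.Agent.Helper78K9.SP

open NumberField Pool.Agent.Helper8K9.DG IntermediateField Polynomial

variable {QA : Type} [Field QA] [CharZero QA] [IsAlgClosed QA] [Algebra.IsAlgebraic ℚ QA]

/-- an endomorphism of a field of characteristic `l` maps a root of unity to a power with exponent
`l ^ a` -/
theorem exists_pow {K : Type} [Field K] {l : ℕ} [Fact l.Prime] [CharP K l] (σ : K →+* K) {N : ℕ}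
    (hN : N.Coprime l) {x : K} (hx : x ^ N = 1) : ∃ a : ℕ, σ x = x ^ (l ^ a) := by
  classical
  obtain ⟨m, hm0, hm⟩ : ∃ m : ℕ, 0 < m ∧ x ^ (l ^ m) = x := by
    refine ⟨Nat.totient N, ?_, ?_⟩
    · refine Nat.totient_pos.2 (Nat.pos_of_ne_zero ?_)
      rintro rfl
      exact (Fact.out : l.Prime).one_lt.ne' (by simpa using hN)
    · have h1 : l ^ Nat.totient N ≡ 1 [MOD N] := Nat.ModEq.pow_totient hN.symm
      have h2 : ∀ a b : ℕ, a ≡ b [MOD N] → x ^ a = x ^ b := by
        intro a b hab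
        rw [← Nat.div_add_mod a N, ← Nat.div_add_mod b N, pow_add, pow_add, pow_mul, pow_mul, hx,
          one_pow, one_pow, hab]
      rw [h2 _ _ h1, pow_one]
  let P : K[X] := ∏ a ∈ Finset.range m, (X - C (x ^ (l ^ a)))
  have hfrob : P.map (frobenius K l) = P := by
    have h1 : P.map (frobenius K l) = ∏ a ∈ Finset.range m, (X - C (x ^ (l ^ (a + 1)))) := by
      rw [Polynomial.map_prod]
      refine Finset.prod_congr rfl fun a _ => ?_
      rw [Polynomial.map_sub, Polynomial.map_X, Polynomial.map_C, frobenius_def, ← pow_mul,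
        ← pow_succ]
    obtain ⟨m', rfl⟩ : ∃ m', m = m' + 1 := ⟨m - 1, by omega⟩
    rw [h1, Finset.prod_range_succ, hm]
    change _ = ∏ a ∈ Finset.range (m' + 1), (X - C (x ^ (l ^ a)))
    rw [Finset.prod_range_succ', pow_zero, pow_one]
  have hσ : P.map σ = P := by
    ext k
    rw [Polynomial.coeff_map]
    have h1 : (P.coeff k) ^ l = P.coeff k := by
      have h2 := congrArg (fun Q : K[X] => Q.coeff k) hfrob
      simp only [Polynomial.coeff_map, frobenius_def] at h2
      exact h2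
    have h2 : P.coeff k ∈ (⊥ : Subfield K) := (Subfield.mem_bot_iff_pow_eq_self K l).2 h1
    have h3 : (⊥ : Subfield K) ≤ σ.eqLocusField (RingHom.id K) := bot_le
    exact h3 h2
  have h0 : P.eval x = 0 := by
    rw [Polynomial.eval_prod]
    refine Finset.prod_eq_zero (Finset.mem_range.2 hm0) ?_
    simp
  have h1 : P.eval (σ x) = 0 := by
    have h2 := Polynomial.hom_eval₂ P (RingHom.id K) σ x
    rw [RingHom.comp_id, ← Polynomial.eval_map σ, hσ] at h2
    rw [← h2]
    change σ (P.eval x) = 0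
    rw [h0, map_zero]
  rw [Polynomial.eval_prod, Finset.prod_eq_zero_iff] at h1
  obtain ⟨a, -, ha⟩ := h1
  refine ⟨a, ?_⟩
  rw [Polynomial.eval_sub, Polynomial.eval_X, Polynomial.eval_C, sub_eq_zero] at ha
  exact ha

/-- the elements of the decomposition groups of the primes above the primes of `S` -/
def decomp (QA : Type) [Field QA] [CharZero QA] (S : Finset ℕ) : Set (QA ≃ₐ[ℚ] QA) :=
  {γ | ∃ l ∈ S, ∃ Q : Ideal (𝓞 QA), Q.IsMaximal ∧ (l : 𝓞 QA) ∈ Q ∧ ∀ x ∈ Q, γ • x ∈ Q}

/-- the cyclotomic character modulo `N` on decomposition groups -/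
theorem exists_cyc' (N : ℕ) [NeZero N] :
    ∃ π : (QA ≃ₐ[ℚ] QA) →* (ZMod N)ˣ, Function.Surjective π ∧ IsFinite ⊤ π ∧
      ∀ (l : ℕ), l.Prime → N.Coprime l → ∀ Q : Ideal (𝓞 QA), Q.IsMaximal → (l : 𝓞 QA) ∈ Q →
        ∀ γ : QA ≃ₐ[ℚ] QA, (∀ x ∈ Q, γ • x ∈ Q) →
          ∃ a : ℕ, ((π γ : (ZMod N)ˣ) : ZMod N) = (l : ZMod N) ^ a := by
  obtain ⟨ζ, hζ⟩ : ∃ ζ : QA, IsPrimitiveRoot ζ N := by
    have : NeZero ((N : ℕ) : QA) := ⟨by exact_mod_cast NeZero.ne N⟩
    exact HasEnoughRootsOfUnity.exists_primitiveRoot QA N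
  have : Algebra.IsIntegral ℚ QA := inferInstance
  have h1 : IsCyclotomicExtension {N} ℚ (IntermediateField.adjoin ℚ {ζ}) :=
    hζ.intermediateField_adjoin_isCyclotomicExtension ℚ
  have h2 : FiniteDimensional ℚ (IntermediateField.adjoin ℚ {ζ}) :=
    IntermediateField.adjoin.finiteDimensional (Algebra.IsIntegral.isIntegral ζ)
  have h3 : Normal ℚ (IntermediateField.adjoin ℚ {ζ}) :=
    (IsCyclotomicExtension.isGalois {N} ℚ (IntermediateField.adjoin ℚ {ζ})).to_normal
  let e := IsCyclotomicExtension.autEquivPow (IntermediateField.adjoin ℚ {ζ})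
    (Polynomial.cyclotomic.irreducible_rat (NeZero.pos N))
  have hz := IsCyclotomicExtension.zeta_spec N ℚ (IntermediateField.adjoin ℚ {ζ})
  set z := IsCyclotomicExtension.zeta N ℚ (IntermediateField.adjoin ℚ {ζ}) with hzdef
  refine ⟨e.toMonoidHom.comp (AlgEquiv.restrictNormalHom (IntermediateField.adjoin ℚ {ζ})), ?_, ?_,
    ?_⟩
  · exact e.surjective.comp (AlgEquiv.restrictNormalHom_surjective QA)
  · refine ⟨IntermediateField.adjoin ℚ {ζ}, h2, le_top, ?_⟩
    intro γ hγ
    have h4 : AlgEquiv.restrictNormalHom (IntermediateField.adjoin ℚ {ζ}) γ = 1 := by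
      refine AlgEquiv.ext fun x => ?_
      apply (algebraMap (IntermediateField.adjoin ℚ {ζ}) QA).injective
      refine (AlgEquiv.restrictNormal_commutes γ _ x).trans ?_
      exact (IntermediateField.mem_fixingSubgroup_iff _ _).1 hγ x.1 x.2
    change e (AlgEquiv.restrictNormalHom (IntermediateField.adjoin ℚ {ζ}) γ) = 1
    rw [h4, map_one]
  · intro l hl hNl Q hQ hlQ γ hγ
    set u : (ZMod N)ˣ := e (AlgEquiv.restrictNormalHom (IntermediateField.adjoin ℚ {ζ}) γ) with hu
    change ∃ a : ℕ, (u : ZMod N) = (l : ZMod N) ^ a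
    have hγz : γ (z : QA) = (z : QA) ^ (u : ZMod N).val := by
      have h4 : z ^ (u : ZMod N).val =
          AlgEquiv.restrictNormalHom (IntermediateField.adjoin ℚ {ζ}) γ z :=
        hz.autToPow_spec ℚ (AlgEquiv.restrictNormalHom (IntermediateField.adjoin ℚ {ζ}) γ)
      have h5 := congrArg (algebraMap (IntermediateField.adjoin ℚ {ζ}) QA) h4
      have h6 := AlgEquiv.restrictNormal_commutes γ (IntermediateField.adjoin ℚ {ζ}) z
      rw [map_pow] at h5
      exact (h5.trans h6).symm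
    have hzprim : IsPrimitiveRoot (z : QA) N :=
      hz.map_of_injective (algebraMap (IntermediateField.adjoin ℚ {ζ}) QA).injective
    have hzi : IsIntegral ℤ (z : QA) := hzprim.isIntegral (NeZero.pos N)
    let w : 𝓞 QA := ⟨(z : QA), hzi⟩
    have hw1 : w ^ N = 1 := by
      apply RingOfIntegers.ext
      change (z : QA) ^ N = 1
      exact hzprim.pow_eq_one
    have hγw : γ • w = w ^ (u : ZMod N).val := by
      apply RingOfIntegers.ext
      change γ (z : QA) = (z : QA) ^ (u : ZMod N).val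
      exact hγz
    let _ : Field (𝓞 QA ⧸ Q) := Ideal.Quotient.field Q
    have : Fact l.Prime := ⟨hl⟩
    have hchar : CharP (𝓞 QA ⧸ Q) l := by
      have h4 : ((l : ℕ) : 𝓞 QA ⧸ Q) = 0 := by
        have h5 := (Ideal.Quotient.eq_zero_iff_mem (I := Q)).2 hlQ
        rwa [map_natCast] at h5
      exact (CharP.charP_iff_prime_eq_zero hl).2 h4
    have hle : Q ≤ Ideal.comap (MulSemiringAction.toRingHom (QA ≃ₐ[ℚ] QA) (𝓞 QA) γ) Q :=
      fun x hx => hγ x hx
    let σ : 𝓞 QA ⧸ Q →+* 𝓞 QA ⧸ Q :=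
      Ideal.quotientMap Q (MulSemiringAction.toRingHom (QA ≃ₐ[ℚ] QA) (𝓞 QA) γ) hle
    set y : 𝓞 QA ⧸ Q := Ideal.Quotient.mk Q w with hy
    have hy1 : y ^ N = 1 := by rw [hy, ← map_pow, hw1, map_one]
    have hyp : IsPrimitiveRoot y N := by
      have hw : IsPrimitiveRoot w N := by
        refine IsPrimitiveRoot.of_map_of_injective (f := algebraMap (𝓞 QA) QA) ?_
          RingOfIntegers.coe_injective
        exact hzprim
      have hNK : ((N : ℕ) : 𝓞 QA ⧸ Q) ≠ 0 := by
        intro h0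
        have h5 := (CharP.cast_eq_zero_iff (𝓞 QA ⧸ Q) l N).1 h0
        exact ((Nat.Prime.coprime_iff_not_dvd hl).1 hNl.symm) h5
      have : NeZero ((N : ℕ) : 𝓞 QA ⧸ Q) := ⟨hNK⟩
      have hcyc : (cyclotomic N (𝓞 QA)).IsRoot w :=
        (isRoot_cyclotomic_iff (n := N) (R := 𝓞 QA)).2 hw
      refine (isRoot_cyclotomic_iff (n := N) (R := 𝓞 QA ⧸ Q)).1 ?_
      have h6 := hcyc.map (f := Ideal.Quotient.mk Q)
      rwa [map_cyclotomic] at h6
    obtain ⟨a, ha⟩ := exists_pow σ hNl hy1
    refine ⟨a, ?_⟩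
    have h7 : σ y = y ^ (u : ZMod N).val := by
      have h8 : σ y = Ideal.Quotient.mk Q (γ • w) := Ideal.quotientMap_mk
      rw [h8, hγw, map_pow]
    rw [h7] at ha
    have h8 : (u : ZMod N).val ≡ l ^ a [MOD N] := by
      have hyu : IsPrimitiveRoot (Units.mk0 y (hyp.ne_zero (NeZero.ne N))) N :=
        IsPrimitiveRoot.coe_units_iff.1 hyp
      have h9 : (Units.mk0 y (hyp.ne_zero (NeZero.ne N))) ^ (u : ZMod N).val =
          (Units.mk0 y (hyp.ne_zero (NeZero.ne N))) ^ (l ^ a) := by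
        apply Units.ext
        rw [Units.val_pow_eq_pow_val, Units.val_pow_eq_pow_val, Units.val_mk0]
        exact ha
      rw [pow_eq_pow_iff_modEq, ← hyu.eq_orderOf] at h9
      exact h9
    have h10 := (ZMod.natCast_eq_natCast_iff _ _ N).2 h8
    rw [ZMod.natCast_zmod_val, Nat.cast_pow] at h10
    exact h10

theorem exists_units' (S : Finset ℕ) (k : ℕ) (hk : 0 < k) : ∀ J : ℕ, ∃ (N : ℕ) (_ : NeZero N)
    (f : (ZMod N)ˣ →* (Fin J → Multiplicative (ZMod k))), Function.Surjective f ∧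
      ∀ l ∈ S, l.Prime → N.Coprime l := by
  intro J
  induction J with
  | zero => exact ⟨1, ⟨one_ne_zero⟩, 1, fun y => ⟨1, Subsingleton.elim _ _⟩, fun l _ _ => by simp⟩
  | succ J ih =>
    obtain ⟨N, hN, f, hf, hNS⟩ := ih
    obtain ⟨l, hl, hNl, hlk⟩ := Nat.exists_prime_gt_modEq_one (N + S.sup id) hk.ne'
    have : Fact l.Prime := ⟨hl⟩
    have hcard : k ∣ Nat.card (ZMod l)ˣ := by
      rw [Nat.card_eq_fintype_card, ZMod.card_units_eq_totient, Nat.totient_prime hl]
      exact (Nat.modEq_iff_dvd' hl.one_le).1 hlk.symm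
    obtain ⟨g, hg⟩ := DS.Cyc.exists_cyclic hcard
    have hcop : Nat.Coprime l N := by
      rw [Nat.Prime.coprime_iff_not_dvd hl]
      intro h
      have := Nat.le_of_dvd (NeZero.pos N) h
      omega
    have h0 : NeZero (l * N) := ⟨(Nat.mul_pos hl.pos (NeZero.pos N)).ne'⟩
    let e : (ZMod (l * N))ˣ ≃* (ZMod l)ˣ × (ZMod N)ˣ :=
      (Units.mapEquiv (ZMod.chineseRemainder hcop).toMulEquiv).trans MulEquiv.prodUnits
    let a : Multiplicative (ZMod k) × (Fin J → Multiplicative (ZMod k)) →*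
        (Fin (J + 1) → Multiplicative (ZMod k)) :=
      { toFun := fun x => Fin.cons x.1 x.2
        map_one' := by
          funext i
          refine Fin.cases ?_ (fun i => ?_) i
          · rfl
          · rfl
        map_mul' := fun x y => by
          funext i
          refine Fin.cases ?_ (fun i => ?_) i
          · rfl
          · rfl }
    have ha : Function.Surjective a := by
      intro y
      refine ⟨(y 0, fun i => y i.succ), ?_⟩
      exact Fin.cons_self_tail y
    refine ⟨l * N, h0, a.comp ((g.prodMap f).comp e.toMonoidHom), ?_, fun l' hl' hp' => ?_⟩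
    · exact ha.comp ((Function.Surjective.prodMap hg hf).comp e.surjective)
    · refine Nat.Coprime.mul_left ?_ (hNS l' hl' hp')
      rw [Nat.coprime_primes hl hp']
      have h1 : l' ≤ S.sup id := Finset.le_sup (f := id) hl'
      omega

/-- **cyclic extensions in which the primes of `S` split completely** -/
theorem cycd (S : Finset ℕ) (hS : ∀ l ∈ S, l.Prime) : S_CYCD (decomp QA S) := by
  classical
  intro k hk J
  have : NeZero k := ⟨hk.ne'⟩
  obtain ⟨N, hN, f, hf, hcop⟩ := exists_units' S k hk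
    (Fintype.card ({l // l ∈ S} → Multiplicative (ZMod k)) * (J + J))
  obtain ⟨π, hπ, ⟨F, hF1, hF2, hF3⟩, hfrob⟩ := exists_cyc' (QA := QA) N
  let u : {l // l ∈ S} → (ZMod N)ˣ := fun l =>
    ZMod.unitOfCoprime l.1 (hcop l.1 l.2 (hS l.1 l.2)).symm
  obtain ⟨y, hy⟩ := Fintype.exists_le_card_fiber_of_mul_le_card
    (f := fun (j : Fin (Fintype.card ({l // l ∈ S} → Multiplicative (ZMod k)) * (J + J)))
      (l : {l // l ∈ S}) => f (u l) j) (n := J + J) (by rw [Fintype.card_fin])
  obtain ⟨i⟩ : Nonempty (Fin (J + J) ↪ {j // j ∈ Finset.univ.filter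
      (fun j => (fun l : {l // l ∈ S} => f (u l) j) = y)}) := by
    refine Function.Embedding.nonempty_of_card_le ?_
    rw [Fintype.card_fin, Fintype.card_coe]
    exact hy
  have hiy : ∀ (a : Fin (J + J)) (l : {l // l ∈ S}), f (u l) (i a).1 = y l := fun a l =>
    congrFun (Finset.mem_filter.1 (i a).2).2 l
  have hinj : Function.Injective (fun a : Fin (J + J) => (i a).1) :=
    Subtype.val_injective.comp i.injective
  let h : (Fin (Fintype.card ({l // l ∈ S} → Multiplicative (ZMod k)) * (J + J)) →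
      Multiplicative (ZMod k)) →* (Fin J → Multiplicative (ZMod k)) :=
    { toFun := fun x t => x (i (Fin.castAdd J t)).1 * (x (i (Fin.natAdd J t)).1)⁻¹
      map_one' := by
        funext t
        simp
      map_mul' := fun x x' => by
        funext t
        simp only [Pi.mul_apply, mul_inv]
        exact mul_mul_mul_comm _ _ _ _ }
  have hh : Function.Surjective h := by
    intro z
    refine ⟨Function.extend (fun a : Fin (J + J) => (i a).1) (Fin.append z (fun _ => 1))
      (fun _ => 1), ?_⟩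
    funext t
    change Function.extend (fun a : Fin (J + J) => (i a).1) _ _ ((fun a => (i a).1)
      (Fin.castAdd J t)) * (Function.extend (fun a : Fin (J + J) => (i a).1) _ _
        ((fun a => (i a).1) (Fin.natAdd J t)))⁻¹ = z t
    rw [hinj.extend_apply, hinj.extend_apply, Fin.append_left, Fin.append_right, inv_one, mul_one]
  refine ⟨(h.comp f).comp π, (hh.comp hf).comp hπ, ⟨F, hF1, hF2, fun γ hγ => ?_⟩, ?_⟩
  · change h (f (π γ)) = 1
    rw [hF3 γ hγ, map_one, map_one]
  · rintro γ ⟨l, hl, Q, hQ, hlQ, hγ⟩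
    obtain ⟨a, ha⟩ := hfrob l (hS l hl) (hcop l hl (hS l hl)) Q hQ hlQ γ hγ
    have h1 : π γ = u ⟨l, hl⟩ ^ a := by
      apply Units.ext
      rw [ha, Units.val_pow_eq_pow_val]
      rfl
    change h (f (π γ)) = 1
    have h2 : h (f (u ⟨l, hl⟩)) = 1 := by
      funext t
      change f (u ⟨l, hl⟩) (i (Fin.castAdd J t)).1 * (f (u ⟨l, hl⟩) (i (Fin.natAdd J t)).1)⁻¹ = 1
      rw [hiy, hiy, mul_inv_cancel]
    rw [h1, map_pow, map_pow, h2, one_pow]

end Pool.Agent.Helper78K9.SP
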