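import Pool.Agent.Helper78K9.BC.Def
import Pool.Agent.Helper78K9.SP.Rel
import Pool.Agent.Helper78K9.SP.Dis
import Pool.Agent.Helper78K9.SP.Split
import Pool.Agent.Helper78K9.DS.Atr
import Pool.Agent.Helper78K9.BK.Fin

/-!
# The fields `K₀` with the groups `ℤ/p` and `(ℤ/p)²`
-/

set_option autoImplicit false

namespace Pool.Agent.Helper78K9.SP

open NumberField Pool.Agent.Helper51K9.TI Pool.Agent.Helper78K9.BC

open Pool.Agent.R389 (ind)

variable {A : Type} [Field A] [CharZero A]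

variable [IsAlgClosed A] [Algebra.IsAlgebraic ℚ A]

theorem pow_eq_one_CC {p : ℕ} (g : DS.CC p) : g ^ p = 1 := by
  have h : ∀ x : Multiplicative (ZMod p), x ^ p = 1 := by
    intro x
    apply Multiplicative.toAdd.injective
    change p • (Multiplicative.toAdd x) = 0
    rw [nsmul_eq_mul, ZMod.natCast_self, zero_mul]
  exact Prod.ext (h _) (h _)

theorem card_CC {p : ℕ} [NeZero p] : Nat.card (DS.CC p) = p ^ 2 := by
  rw [Nat.card_prod, Nat.card_congr Multiplicative.toAdd, Nat.card_zmod, sq]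

/-- the Galois group is killed by `p` -/
theorem pow_eq_one {p : ℕ} [NeZero p] {π : (A ≃ₐ[ℚ] A) →* DS.CC p} {V : Subgroup (DS.CC p)}
    {K₀ : IntermediateField ℚ A} [IsGalois ℚ K₀] (hV : K₀.fixingSubgroup = V.comap π)
    (g : K₀ ≃ₐ[ℚ] K₀) : g ^ p = 1 := by
  have hsur : Function.Surjective (AlgEquiv.restrictNormalHom (F := ℚ) (K₁ := A) K₀) :=
    AlgEquiv.restrictNormalHom_surjective A
  obtain ⟨x, rfl⟩ := hsur g
  rw [← map_pow]
  have h1 : x ^ p ∈ (AlgEquiv.restrictNormalHom (F := ℚ) (K₁ := A) K₀).ker := by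
    rw [MonoidHom.mem_ker, DS.Atr.mem_ker, hV, Subgroup.mem_comap, map_pow, pow_eq_one_CC]
    exact V.one_mem
  exact h1

/-- **the fields `K₀`** -/
theorem exists_field (K' : IntermediateField ℚ A) [FiniteDimensional ℚ K']
    (F₀ : IntermediateField ℚ A) [FiniteDimensional ℚ F₀] (hF₀ : K' ≤ F₀) {S : Finset ℕ}
    {p : ℕ} (hp : p.Prime) (hp2 : p ≠ 2) {π : (A ≃ₐ[ℚ] A) →* DS.CC p}
    (hsurj : Function.Surjective π) (hπ : Helper8K9.DG.IsFinite ⊤ π)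
    (hdis : ∀ g : DS.CC p, ∃ γ ∈ F₀.fixingSubgroup, π γ = g) (hπD : ∀ γ ∈ decomp A S, π γ = 1)
    (V : Subgroup (DS.CC p)) (hV : V.index = p ∨ V.index = p ^ 2) :
    ∃ (K₀ : IntermediateField ℚ A) (_ : FiniteDimensional ℚ K₀)
      (_ : FiniteDimensional ℚ (K' ⊔ K₀ : IntermediateField ℚ A)), IsSmall p K₀ ∧ K₀ ⊓ F₀ = ⊥ ∧
      (∀ l ∈ S, SplitsCompletely l K₀) ∧
      ∀ γ, (open Classical in (BK.permRep (K' ⊔ K₀) γ).trace) =
        (open Classical in (BK.permRep K' γ).trace) * ind V (fun _ => (1 : ℚ)) (π γ) := by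
  classical
  have : NeZero p := ⟨hp.ne_zero⟩
  have hle₀ : F₀.fixingSubgroup ≤ K'.fixingSubgroup :=
    IntermediateField.fixingSubgroup_antitone hF₀
  have hodd : Odd (Nat.card (DS.CC p)) := by
    rw [card_CC]
    exact (hp.odd_of_ne_two hp2).pow
  obtain ⟨K₀, hK₀, -, hK₀V⟩ := Helper8K9.DG.cor ⊤ _ π hπ V
  obtain ⟨h1, h2, h3⟩ := DS.atr (DS.CC p) π hodd hsurj V K₀ hK₀V
  have hfd : FiniteDimensional ℚ (K' ⊔ K₀ : IntermediateField ℚ A) :=
    IntermediateField.finiteDimensional_sup K' K₀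
  have hdeg : Module.finrank ℚ (K' ⊔ K₀ : IntermediateField ℚ A) =
      Module.finrank ℚ K' * Module.finrank ℚ K₀ := by
    rw [← IntermediateField.finrank_bot_mul_relfinrank (le_sup_left : K' ≤ K' ⊔ K₀),
      ← index_gal K' (K' ⊔ K₀) le_sup_left, h3]
    congr 1
    have h4 : gal K' (K' ⊔ K₀) = V.comap (π.comp K'.fixingSubgroup.subtype) := by
      ext γ
      rw [Subgroup.mem_subgroupOf, IntermediateField.fixingSubgroup_sup, hK₀V, Subgroup.mem_inf,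
        Subgroup.mem_comap, Subgroup.mem_comap]
      exact ⟨fun h => h.2, fun h => ⟨γ.2, h⟩⟩
    rw [h4, Subgroup.index_comap_of_surjective]
    intro g
    obtain ⟨γ, hγ, h5⟩ := hdis g
    exact ⟨⟨γ, hle₀ hγ⟩, h5⟩
  have hgal : IsGalois ℚ K₀ := h1.toIsGalois
  refine ⟨K₀, hK₀, hfd, ⟨h1, h2, by rwa [h3], pow_eq_one hK₀V⟩, DS.inf_eq_bot hK₀V hdis, ?_, ?_⟩
  · intro l hl Q hQ hlQ γ hγ
    rw [hK₀V, Subgroup.mem_comap, hπD γ ⟨l, hl, Q, hQ, hlQ, hγ⟩]
    exact V.one_mem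
  · intro γ
    rw [BK.trace_sup K' K₀ hdeg γ, BK.trace_perm hsurj V K₀ hK₀V γ]

/-- two primes -/
theorem exists_primes (N : ℕ) : ∃ p q a b : ℕ, p.Prime ∧ q.Prime ∧ p ≠ 2 ∧ q ≠ 2 ∧ N ≤ p ∧ N ≤ q ∧
    a ≠ 0 ∧ b ≠ 0 ∧ a * p = b * q + 1 := by
  obtain ⟨p, hp1, hp⟩ := Nat.exists_infinite_primes (N + 3)
  obtain ⟨q, hq1, hq⟩ := Nat.exists_infinite_primes (p + 1)
  have hcop : Nat.Coprime p q := (Nat.coprime_primes hp hq).2 (by omega)
  obtain ⟨a, -, ha⟩ := Nat.exists_mul_mod_eq_one_of_coprime hcop hq.one_lt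
  have h1 := Nat.div_add_mod (p * a) q
  rw [ha] at h1
  refine ⟨p, q, a, p * a / q, hp, hq, by omega, by omega, by omega, by omega, ?_, ?_, ?_⟩
  · rintro rfl
    simp at ha
  · intro h0
    rw [h0, mul_zero, zero_add] at h1
    have h2 := Nat.eq_one_of_mul_eq_one_right h1.symm
    exact hp.one_lt.ne' h2
  · rw [mul_comm a p, mul_comm (p * a / q) q]
    exact h1.symm

end Pool.Agent.Helper78K9.SP
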